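import Mathlib

/-!
# Maximal cyclic sorting time by transpositions: all multiples of two and of three

`t(n) ≤ n - 3` for every `n ≥ 4` divisible by 2 or by 3. The even case is the result `EvenOrder` of
helper95, whose lemmas are repeated here.
-/

set_option autoImplicit false

namespace Pool.Agent.Results.MP_02ec02_co.MultiplesOfTwoOrThree

open Equiv Equiv.Perm

/-- The number of cycles of a permutation, fixed points included. -/
def cyc {n : ℕ} [NeZero n] (σ : Perm (ZMod n)) : ℕ := Multiset.card σ.partition.parts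

/-- The sorting time of the class of `π`: the least value of `n - cyc σ` for the permutations
`σ : x ↦ π (i + x)`, `i` modulo `n`. -/
noncomputable def tt {n : ℕ} [NeZero n] (π : Perm (ZMod n)) : ℕ :=
  sInf {m | ∃ i : ZMod n, m = n - cyc (π * Equiv.addLeft i)}

/-- The largest sorting time. -/
noncomputable def t (n : ℕ) [NeZero n] : ℕ := Finset.univ.sup fun π : Perm (ZMod n) => tt π

/-- The number of fixed points. -/
def fx {n : ℕ} [NeZero n] (σ : Perm (ZMod n)) : ℕ := (Finset.univ.filter fun x => σ x = x).card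

theorem fx_supp {n : ℕ} [NeZero n] (σ : Perm (ZMod n)) : fx σ + σ.support.card = n := by
  have h := Finset.card_filter_add_card_filter_not (s := (Finset.univ : Finset (ZMod n)))
    (fun x => σ x = x)
  rw [Finset.card_univ, ZMod.card] at h
  exact h

theorem cyc_eq {n : ℕ} [NeZero n] (σ : Perm (ZMod n)) :
    cyc σ = Multiset.card σ.cycleType + fx σ := by
  rw [cyc, Equiv.Perm.parts_partition, Multiset.card_add, Multiset.card_replicate, ZMod.card]
  have := fx_supp σ
  omega

theorem fx_le {n : ℕ} [NeZero n] (hn : 3 ≤ n) (σ : Perm (ZMod n)) (h : cyc σ ≤ 2) :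
    fx σ + 1 ≤ cyc σ := by
  rw [cyc_eq] at h ⊢
  have : Multiset.card σ.cycleType ≠ 0 := by
    intro h0
    rw [Equiv.Perm.card_cycleType_eq_zero] at h0
    have h1 : fx σ = n := by
      have := fx_supp σ
      rw [h0, Equiv.Perm.support_one, Finset.card_empty] at this
      rw [h0]; omega
    omega
  omega

theorem sign_cyc {n : ℕ} [NeZero n] (hn : Even n) (σ : Perm (ZMod n)) :
    sign σ = (-1) ^ cyc σ := by
  rw [Equiv.Perm.sign_of_cycleType, Equiv.Perm.sum_cycleType, cyc_eq]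
  have h := fx_supp σ
  have e : σ.support.card + Multiset.card σ.cycleType + 2 * fx σ =
      (Multiset.card σ.cycleType + fx σ) + n := by omega
  have h1 : (-1 : ℤˣ) ^ (σ.support.card + Multiset.card σ.cycleType + 2 * fx σ) =
      (-1) ^ ((Multiset.card σ.cycleType + fx σ) + n) := by rw [e]
  rw [pow_add, pow_mul, pow_add _ _ n, hn.neg_one_pow] at h1
  simpa using h1

theorem sign_add_one {m : ℕ} (hm : Odd m) : sign (Equiv.addLeft (1 : ZMod (m + 1))) = -1 := by
  have h : (Equiv.addLeft (1 : ZMod (m + 1)) : Perm (ZMod (m + 1))) = finRotate (m + 1) := by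
    apply Equiv.ext
    intro x
    exact (add_comm (1 : Fin (m + 1)) x).trans (finRotate_succ_apply x).symm
  rw [h]
  have := sign_finRotate (m + 1)
  rw [Nat.add_sub_cancel, hm.neg_one_pow] at this
  exact this

theorem sum_fx {n : ℕ} [NeZero n] (π : Perm (ZMod n)) :
    ∑ i : ZMod n, fx (π * Equiv.addLeft i) = n := by
  have h : ∀ i : ZMod n, fx (π * Equiv.addLeft i) = ∑ x : ZMod n, if π (i + x) = x then 1 else 0 := by
    intro i
    rw [fx, Finset.card_filter]
    rfl
  rw [Finset.sum_congr rfl fun i _ => h i, Finset.sum_comm]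
  have h2 : ∀ x : ZMod n, ∑ i : ZMod n, (if π (i + x) = x then 1 else 0) = 1 := by
    intro x
    rw [← Finset.card_filter, Finset.card_eq_one]
    refine ⟨π⁻¹ x - x, ?_⟩
    ext i
    simp only [Finset.mem_filter, Finset.mem_univ, true_and, Finset.mem_singleton]
    constructor
    · intro h
      rw [eq_sub_iff_add_eq]
      exact Equiv.Perm.eq_inv_iff_eq.mpr h
    · intro h; rw [h]; simp
  rw [Finset.sum_congr rfl fun x _ => h2 x]
  simp [ZMod.card]

theorem exists_three {n : ℕ} [NeZero n] (h4 : 4 ≤ n) (he : Even n) (π : Perm (ZMod n)) :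
    ∃ i : ZMod n, 3 ≤ cyc (π * Equiv.addLeft i) := by
  by_contra hcon
  push Not at hcon
  have hpair : ∀ i : ZMod n, fx (π * Equiv.addLeft i) + fx (π * Equiv.addLeft (i + 1)) ≤ 1 := by
    intro i
    have a1 := fx_le (by omega) (π * Equiv.addLeft i) (by have := hcon i; omega)
    have a2 := fx_le (by omega) (π * Equiv.addLeft (i + 1)) (by have := hcon (i + 1); omega)
    have b1 := hcon i
    have b2 := hcon (i + 1)
    have s1 := sign_cyc he (π * Equiv.addLeft i)
    have s2 := sign_cyc he (π * Equiv.addLeft (i + 1))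
    have hs : sign (π * Equiv.addLeft (i + 1)) = - sign (π * Equiv.addLeft i) := by
      have e : (Equiv.addLeft (i + 1) : Perm (ZMod n)) = Equiv.addLeft i * Equiv.addLeft 1 := by
        apply Equiv.ext
        intro x
        exact add_assoc i 1 x
      have h1 : sign (Equiv.addLeft (1 : ZMod n)) = -1 := by
        obtain ⟨m, rfl⟩ : ∃ m, n = m + 1 := ⟨n - 1, by omega⟩
        apply sign_add_one
        rw [← Nat.not_even_iff_odd]
        intro hm
        exact (Nat.even_add_one.mp he) hm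
      rw [e, ← mul_assoc, Equiv.Perm.sign_mul, h1]
      simp
    rw [s1, s2] at hs
    have hc : ∀ k l : ℕ, k < 3 → l < 3 → 1 ≤ k → 1 ≤ l → ((-1 : ℤˣ) ^ l = -(-1) ^ k) → k + l ≤ 3 := by
      intro k l hk hl hk1 hl1 h
      interval_cases k <;> interval_cases l <;> simp_all
    have := hc _ _ b1 b2 (by omega) (by omega) hs
    omega
  have hsum : ∑ i : ZMod n, (fx (π * Equiv.addLeft i) + fx (π * Equiv.addLeft (i + 1))) ≤
      ∑ _i : ZMod n, 1 := Finset.sum_le_sum fun i _ => hpair i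
  rw [Finset.sum_add_distrib, sum_fx] at hsum
  have hshift : ∑ i : ZMod n, fx (π * Equiv.addLeft (i + 1)) = n :=
    (Fintype.sum_equiv (Equiv.addRight (1 : ZMod n)) _ (fun i => fx (π * Equiv.addLeft i))
      (fun i => rfl)).trans (sum_fx π)
  rw [hshift] at hsum
  simp [ZMod.card] at hsum
  omega

/-- If all rotations of `π` have at most two cycles, they all have exactly one fixed point. -/
theorem fx_one {n : ℕ} [NeZero n] (h4 : 4 ≤ n) (π : Perm (ZMod n))
    (h : ∀ i : ZMod n, cyc (π * Equiv.addLeft i) ≤ 2) (i : ZMod n) :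
    fx (π * Equiv.addLeft i) = 1 := by
  have hle : ∀ j : ZMod n, fx (π * Equiv.addLeft j) ≤ 1 := by
    intro j
    have := fx_le (by omega) (π * Equiv.addLeft j) (h j)
    have := h j
    omega
  by_contra hne
  have hlt : ∑ j : ZMod n, fx (π * Equiv.addLeft j) < ∑ _j : ZMod n, 1 :=
    Finset.sum_lt_sum (fun j _ => hle j) ⟨i, Finset.mem_univ i, lt_of_le_of_ne (hle i) hne⟩
  rw [sum_fx] at hlt
  simp [ZMod.card] at hlt

theorem no_two_cycle {n : ℕ} [NeZero n] (h4 : 4 ≤ n) (σ : Perm (ZMod n)) (h : cyc σ ≤ 2)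
    (h1 : fx σ = 1) (x y : ZMod n) (hxy : σ x = y) (hyx : σ y = x) : x = y := by
  by_contra hne
  have hc : Multiset.card σ.cycleType = 1 := by
    have h2 := fx_le (by omega) σ h
    rw [cyc_eq] at h h2
    omega
  have hcyc : σ.IsCycle := Equiv.Perm.card_cycleType_eq_one.1 hc
  have hsupp : σ.support.card = n - 1 := by
    have := fx_supp σ
    omega
  have hpow : σ ^ 2 = 1 := by
    rw [hcyc.pow_eq_one_iff]
    refine ⟨x, ?_, ?_⟩
    · rw [hxy]
      exact fun h => hne h.symm
    · rw [pow_two, Perm.mul_apply, hxy, hyx]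
  have hord := orderOf_dvd_of_pow_eq_one hpow
  rw [hcyc.orderOf, hsupp] at hord
  have := Nat.le_of_dvd (by norm_num) hord
  omega

theorem sum_val {n : ℕ} [NeZero n] : ∑ x : ZMod n, x ^ 2 =
    ((∑ k ∈ Finset.range n, k ^ 2 : ℕ) : ZMod n) := by
  push_cast
  refine Finset.sum_nbij ZMod.val ?_ ?_ ?_ ?_
  · intro a _
    exact Finset.mem_range.2 (ZMod.val_lt a)
  · intro a _ b _ hab
    exact ZMod.val_injective n hab
  · intro k hk
    have hk' : k < n := Finset.mem_range.1 (Finset.mem_coe.1 hk)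
    exact ⟨(k : ZMod n), Finset.mem_coe.2 (Finset.mem_univ _), ZMod.val_cast_of_lt hk'⟩
  · intro a _
    rw [ZMod.natCast_zmod_val]

theorem six_sum (n : ℕ) : 6 * (∑ k ∈ Finset.range (n + 1), (k : ℤ) ^ 2) = n * (n + 1) * (2 * n + 1) := by
  induction n with
  | zero => simp
  | succ n ih =>
    rw [Finset.sum_range_succ, mul_add, ih]
    push_cast
    ring

theorem three_ndvd {n : ℕ} [NeZero n] (h : 2 * ∑ x : ZMod n, x ^ 2 = 0) : ¬ 3 ∣ n := by
  rintro ⟨m, hm⟩
  have hn : n ≠ 0 := NeZero.ne n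
  have hm0 : 0 < m := by omega
  rw [sum_val] at h
  have h2 : ((2 * ∑ k ∈ Finset.range n, k ^ 2 : ℕ) : ZMod n) = 0 := by
    rw [Nat.cast_mul]
    exact_mod_cast h
  rw [ZMod.natCast_eq_zero_iff] at h2
  obtain ⟨c, hc⟩ := h2
  obtain ⟨l, rfl⟩ : ∃ l, n = l + 1 := ⟨n - 1, by omega⟩
  have h6 := six_sum l
  have hcz : 2 * (∑ k ∈ Finset.range (l + 1), (k : ℤ) ^ 2) = (l + 1) * c := by
    exact_mod_cast hc
  have hl : (l : ℤ) = 3 * m - 1 := by
    have : (l : ℤ) + 1 = 3 * m := by exact_mod_cast hm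
    omega
  have h7 : 3 * (((l : ℤ) + 1) * c) = l * (l + 1) * (2 * l + 1) := by
    rw [← h6, ← hcz]
    ring
  have hl1 : (l : ℤ) + 1 ≠ 0 := by positivity
  have h8 : 3 * (c : ℤ) = l * (2 * l + 1) := by
    apply mul_left_cancel₀ hl1
    linear_combination h7
  rw [hl] at h8
  have h9 : (3 : ℤ) * (c - (6 * m ^ 2 - 3 * m)) = 1 := by
    linear_combination h8
  omega

theorem three_case {n : ℕ} [NeZero n] (h4 : 4 ≤ n) (h3 : 3 ∣ n) (π : Perm (ZMod n)) :
    ∃ i : ZMod n, 3 ≤ cyc (π * Equiv.addLeft i) := by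
  by_contra hcon
  push Not at hcon
  have hcyc : ∀ i : ZMod n, cyc (π * Equiv.addLeft i) ≤ 2 := fun i => by
    have := hcon i
    omega
  have hfx := fx_one h4 π hcyc
  have happ : ∀ i x : ZMod n, (π * Equiv.addLeft i) x = π (i + x) := fun i x => rfl
  -- `π⁻¹ + id` is injective
  have hplus : Function.Injective fun x : ZMod n => π⁻¹ x + x := by
    intro x y hxy
    simp only at hxy
    have e1 : (π⁻¹ y - x) + x = π⁻¹ y := by ring
    have e2 : (π⁻¹ y - x) + y = π⁻¹ x := by
      have : π⁻¹ y = π⁻¹ x + x - y := by rw [hxy]; ring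
      rw [this]; ring
    refine no_two_cycle h4 (π * Equiv.addLeft (π⁻¹ y - x)) (hcyc _) (hfx _) x y ?_ ?_
    · rw [happ, e1]
      exact π.apply_symm_apply y
    · rw [happ, e2]
      exact π.apply_symm_apply x
  -- `π⁻¹ - id` is injective
  have hminus : Function.Injective fun x : ZMod n => π⁻¹ x - x := by
    intro x y hxy
    simp only at hxy
    have e1 : (π⁻¹ x - x) + x = π⁻¹ x := by ring
    have e2 : (π⁻¹ x - x) + y = π⁻¹ y := by rw [hxy]; ring
    have hf := hfx (π⁻¹ x - x)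
    unfold fx at hf
    rw [Finset.card_eq_one] at hf
    obtain ⟨z, hz⟩ := hf
    have hx : x ∈ (Finset.univ.filter fun w => (π * Equiv.addLeft (π⁻¹ x - x)) w = w) := by
      rw [Finset.mem_filter]
      exact ⟨Finset.mem_univ _, by rw [happ, e1]; exact π.apply_symm_apply x⟩
    have hy : y ∈ (Finset.univ.filter fun w => (π * Equiv.addLeft (π⁻¹ x - x)) w = w) := by
      rw [Finset.mem_filter]
      exact ⟨Finset.mem_univ _, by rw [happ, e2]; exact π.apply_symm_apply y⟩
    rw [hz, Finset.mem_singleton] at hx hy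
    rw [hx, hy]
  have s1 : ∑ x : ZMod n, (π⁻¹ x + x) ^ 2 = ∑ x : ZMod n, x ^ 2 :=
    Function.Bijective.sum_comp (Finite.injective_iff_bijective.1 hplus) (fun x => x ^ 2)
  have s2 : ∑ x : ZMod n, (π⁻¹ x - x) ^ 2 = ∑ x : ZMod n, x ^ 2 :=
    Function.Bijective.sum_comp (Finite.injective_iff_bijective.1 hminus) (fun x => x ^ 2)
  have s3 : ∑ x : ZMod n, (π⁻¹ x) ^ 2 = ∑ x : ZMod n, x ^ 2 :=
    Equiv.sum_comp π⁻¹ (fun x => x ^ 2)
  have s4 : ∑ x : ZMod n, (π⁻¹ x + x) ^ 2 + ∑ x : ZMod n, (π⁻¹ x - x) ^ 2 =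
      2 * ∑ x : ZMod n, (π⁻¹ x) ^ 2 + 2 * ∑ x : ZMod n, x ^ 2 := by
    rw [Finset.mul_sum, Finset.mul_sum, ← Finset.sum_add_distrib, ← Finset.sum_add_distrib]
    apply Finset.sum_congr rfl
    intro x _
    ring
  rw [s1, s2, s3] at s4
  have s5 : 2 * ∑ x : ZMod n, x ^ 2 = 0 := by
    linear_combination -s4
  exact three_ndvd s5 h3

/-- **`t(n) ≤ n - 3` for every `n ≥ 4` which is divisible by 2 or by 3.** -/
theorem result : ∀ (n : ℕ) [NeZero n], 4 ≤ n → 2 ∣ n ∨ 3 ∣ n → t n ≤ n - 3 := by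
  intro n _ h4 h
  apply Finset.sup_le
  intro π _
  obtain ⟨i, hi⟩ : ∃ i : ZMod n, 3 ≤ cyc (π * Equiv.addLeft i) := by
    rcases h with h | h
    · exact exists_three h4 (even_iff_two_dvd.2 h) π
    · exact three_case h4 h π
  have : tt π ≤ n - cyc (π * Equiv.addLeft i) := Nat.sInf_le ⟨i, rfl⟩
  omega

end Pool.Agent.Results.MP_02ec02_co.MultiplesOfTwoOrThree
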